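import Pool.Agent.helper94.SCT.Spec

/-! # Row sct:INT (MP_ad8ced_nt) -/

set_option autoImplicit false

namespace Pool.Agent.SCT

open Finset ArithmeticFunction MeasureTheory

private theorem INT_Mt_conj (φ : ℝ → ℝ) (s : ℂ) : Mt φ ((starRingEnd ℂ) s) = (starRingEnd ℂ) (Mt φ s) := by
  unfold Mt
  rw [← integral_conj]
  congr 1
  ext u
  rw [map_mul, Complex.conj_ofReal, ← Complex.exp_conj, map_mul, Complex.conj_ofReal]

private theorem INT_cpow (x : ℕ) (hx : 1 ≤ x) (s : ℂ) :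
    ((x : ℂ) ^ 2) ^ s = Complex.exp (((2 * Real.log x : ℝ) : ℂ) * s) := by
  have h0 : (x : ℂ) ^ 2 ≠ 0 := by
    have : (x : ℂ) ≠ 0 := by exact_mod_cast (by omega : x ≠ 0)
    exact pow_ne_zero 2 this
  rw [Complex.cpow_def_of_ne_zero h0]
  congr 2
  have h1 : (x : ℂ) ^ 2 = (((x : ℝ) ^ 2 : ℝ) : ℂ) := by push_cast; rfl
  rw [h1, ← Complex.ofReal_log (by positivity), Real.log_pow]
  push_cast
  rfl

private theorem INT_F0_neg (g : ℝ → ℝ) (x : ℕ) (hx : 1 ≤ x) (t : ℝ) :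
    F0 g x (-t) = (starRingEnd ℂ) (F0 g x t) := by
  unfold F0
  have h1 : (1 : ℂ) - ((-t : ℝ) : ℂ) * Complex.I = (starRingEnd ℂ) (1 - (t : ℂ) * Complex.I) := by
    rw [map_sub, map_one, map_mul, Complex.conj_ofReal, Complex.conj_I]
    push_cast
    ring
  rw [h1, map_mul, INT_Mt_conj, INT_cpow x hx, INT_cpow x hx, ← Complex.exp_conj, map_mul, Complex.conj_ofReal]

private theorem INT_F0_norm (g : ℝ → ℝ) (x : ℕ) (hx : 1 ≤ x) (t : ℝ) :
    ‖F0 g x t‖ = (x : ℝ) ^ 2 * ‖Mt g (1 - (t : ℂ) * Complex.I)‖ := by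
  unfold F0
  rw [norm_mul, INT_cpow x hx, Complex.norm_exp]
  congr 1
  have h1 : ((((2 * Real.log x : ℝ) : ℂ)) * (1 - (t : ℂ) * Complex.I)).re = 2 * Real.log x := by
    rw [Complex.re_ofReal_mul]
    simp
  rw [h1, two_mul, Real.exp_add, Real.exp_log (by exact_mod_cast hx), pow_two]

/-- the integrand -/
private noncomputable def INT_h (φ g w : ℝ → ℝ) (x : ℕ) (η t : ℝ) : ℝ :=
  ‖Mt w (((η * t : ℝ) : ℂ) * Complex.I)‖ * (‖DL g ((x : ℝ) ^ 2) t - F0 g x t‖ * ‖DL φ x (2 * t)‖)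

private theorem INT_even (φ g w : ℝ → ℝ) (x : ℕ) (hx : 1 ≤ x) (η : ℝ)
    (hφ : ∀ t : ℝ, DL φ (x : ℝ) (-t) = (starRingEnd ℂ) (DL φ (x : ℝ) t))
    (hg : ∀ t : ℝ, DL g ((x : ℝ) ^ 2) (-t) = (starRingEnd ℂ) (DL g ((x : ℝ) ^ 2) t)) (t : ℝ) :
    INT_h φ g w x η (-t) = INT_h φ g w x η t := by
  unfold INT_h
  have h1 : (((η * -t : ℝ) : ℂ)) * Complex.I = (starRingEnd ℂ) (((η * t : ℝ) : ℂ) * Complex.I) := by
    rw [map_mul, Complex.conj_ofReal, Complex.conj_I]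
    push_cast
    ring
  rw [h1, INT_Mt_conj, RCLike.norm_conj, hg, INT_F0_neg g x hx, ← map_sub, RCLike.norm_conj,
    show 2 * -t = -(2 * t) by ring, hφ, RCLike.norm_conj]

private theorem INT_nonneg (φ g w : ℝ → ℝ) (x : ℕ) (η t : ℝ) : 0 ≤ INT_h φ g w x η t := by
  unfold INT_h
  positivity

private theorem INT_half (φ g w : ℝ → ℝ) (x : ℕ) (η : ℝ)
    (he : ∀ t, INT_h φ g w x η (-t) = INT_h φ g w x η t) :
    ∫ t : ℝ, INT_h φ g w x η t = 2 * ∫ t in Set.Ioi (0 : ℝ), INT_h φ g w x η t := by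
  rw [← integral_comp_abs]
  congr 1
  ext t
  rcases abs_choice t with h | h
  · rw [h]
  · rw [h, he]

/-- Elementary bounds of the pieces, and the comparison. -/
private theorem INT_bound (h G1 G2 G3 G4 G5 : ℝ → ℝ) (h0 : ∀ t, 0 ≤ h t)
    (i1 : Integrable G1) (i2 : Integrable G2) (i3 : Integrable G3) (i4 : Integrable G4) (i5 : Integrable G5)
    (n1 : ∀ t, 0 ≤ G1 t) (n2 : ∀ t, 0 ≤ G2 t) (n3 : ∀ t, 0 ≤ G3 t) (n4 : ∀ t, 0 ≤ G4 t) (n5 : ∀ t, 0 ≤ G5 t)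
    (hle : ∀ t, 0 < t → h t ≤ G1 t + G2 t + G3 t + G4 t + G5 t) :
    ∫ t in Set.Ioi (0 : ℝ), h t ≤ (∫ t, G1 t) + (∫ t, G2 t) + (∫ t, G3 t) + (∫ t, G4 t) + ∫ t, G5 t := by
  have hi : Integrable (fun t => G1 t + G2 t + G3 t + G4 t + G5 t) := (((i1.add i2).add i3).add i4).add i5
  calc ∫ t in Set.Ioi (0 : ℝ), h t ≤ ∫ t in Set.Ioi (0 : ℝ), (G1 t + G2 t + G3 t + G4 t + G5 t) := by
        apply integral_mono_of_nonneg
        · exact Filter.Eventually.of_forall h0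
        · exact hi.integrableOn
        · filter_upwards [self_mem_ae_restrict measurableSet_Ioi] with t ht
          exact hle t ht
    _ ≤ ∫ t, (G1 t + G2 t + G3 t + G4 t + G5 t) := by
        apply setIntegral_le_integral hi
        exact Filter.Eventually.of_forall fun t => by
          have := n1 t; have := n2 t; have := n3 t; have := n4 t; have := n5 t
          change 0 ≤ G1 t + G2 t + G3 t + G4 t + G5 t
          linarith
    _ = _ := by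
        have e2 : Integrable (fun t => G1 t + G2 t) := i1.add i2
        have e3 : Integrable (fun t => G1 t + G2 t + G3 t) := e2.add i3
        have e4 : Integrable (fun t => G1 t + G2 t + G3 t + G4 t) := e3.add i4
        rw [integral_add e4 i5, integral_add e3 i4, integral_add e2 i3, integral_add i1 i2]

private theorem INT_sq (a : ℝ) (ha : 0 < a) :
    IntegrableOn (fun t : ℝ => t ^ (-2 : ℝ)) (Set.Ioi a) ∧ ∫ t in Set.Ioi a, t ^ (-2 : ℝ) = 1 / a := by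
  refine ⟨integrableOn_Ioi_rpow_of_lt (by norm_num) ha, ?_⟩
  rw [integral_Ioi_rpow_of_lt (by norm_num) ha]
  have h1 : (-2 : ℝ) + 1 = -1 := by norm_num
  rw [h1, Real.rpow_neg_one]
  field_simp

private theorem INT_fixed (φ g w : ℝ → ℝ) (x : ℕ) (η T a Cw Cp CF Cg V1 V2 V3 V4 V5 : ℝ) (E : Set ℝ)
    (ha : 0 < a) (hT : 0 < T) (hcg : Continuous (DL g ((x : ℝ) ^ 2))) (hcp : Continuous (DL φ (x : ℝ)))
    (hE : MeasurableSet E)
    (hCw : ∀ t : ℝ, ‖Mt w (((η * t : ℝ) : ℂ) * Complex.I)‖ ≤ Cw)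
    (hP : ∀ t : ℝ, ‖DL φ x (2 * t)‖ ≤ Cp * x)
    (hF : ∀ t : ℝ, 0 < t → ‖F0 g x t‖ ≤ CF * (x : ℝ) ^ 2 * t ^ (-2 : ℝ))
    (hF' : ∀ t : ℝ, ‖F0 g x t‖ ≤ CF * (x : ℝ) ^ 2)
    (hDg : ∀ t : ℝ, ‖DL g ((x : ℝ) ^ 2) t‖ ≤ Cg * (x : ℝ) ^ 2)
    (hPN : ∀ t : ℝ, 0 < t → t ≤ a → ‖DL g ((x : ℝ) ^ 2) t - F0 g x t‖ ≤ V1)
    (hVP : ∀ t : ℝ, a ≤ t → t ≤ T → ‖DL φ x (2 * t)‖ ≤ V2)
    (hE2 : ∫ t in Set.Icc 0 T \ E, ‖DL g ((x : ℝ) ^ 2) t‖ * ‖DL φ x (2 * t)‖ ≤ V3)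
    (hE3 : ∫ t in E ∩ Set.Icc a T, ‖DL g ((x : ℝ) ^ 2) t‖ ≤ V4)
    (hMt : ∀ t : ℝ, T < t → ‖Mt w (((η * t : ℝ) : ℂ) * Complex.I)‖ ≤ V5 * t ^ (-2 : ℝ))
    (hCw0 : 0 ≤ Cw) (hCp0 : 0 ≤ Cp) (hCF0 : 0 ≤ CF) (hCg0 : 0 ≤ Cg) (hV1 : 0 ≤ V1) (hV2 : 0 ≤ V2) (hV5 : 0 ≤ V5) :
    ∫ t in Set.Ioi (0 : ℝ), INT_h φ g w x η t ≤ Cw * V1 * (Cp * x) * a + Cw * V3 + Cw * V2 * V4 +
      Cw * (CF * (x : ℝ) ^ 2) * (Cp * x) * (1 / a) + V5 * ((Cg + CF) * (x : ℝ) ^ 2) * (Cp * x) * (1 / T) := by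
  have hx0 : (0 : ℝ) ≤ x := Nat.cast_nonneg x
  have hcp2 : Continuous fun t : ℝ => ‖DL φ x (2 * t)‖ := (hcp.comp (continuous_const.mul continuous_id)).norm
  have hcg2 : Continuous fun t : ℝ => ‖DL g ((x : ℝ) ^ 2) t‖ := hcg.norm
  have hmE1 : MeasurableSet (Set.Icc 0 T \ E) := measurableSet_Icc.diff hE
  have hmE2 : MeasurableSet (E ∩ Set.Icc a T) := hE.inter measurableSet_Icc
  -- integrability
  have j1 : IntegrableOn (fun _ : ℝ => Cw * V1 * (Cp * x)) (Set.Ioc 0 a) :=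
    integrableOn_const (by simp)
  have j2 : IntegrableOn (fun t : ℝ => Cw * (‖DL g ((x : ℝ) ^ 2) t‖ * ‖DL φ x (2 * t)‖)) (Set.Icc 0 T \ E) :=
    ((continuous_const.mul (hcg2.mul hcp2)).integrableOn_Icc).mono_set Set.sdiff_subset
  have j3 : IntegrableOn (fun t : ℝ => Cw * V2 * ‖DL g ((x : ℝ) ^ 2) t‖) (E ∩ Set.Icc a T) :=
    ((continuous_const.mul hcg2).integrableOn_Icc).mono_set Set.inter_subset_right
  have j4 : IntegrableOn (fun t : ℝ => Cw * (CF * (x : ℝ) ^ 2) * (Cp * x) * t ^ (-2 : ℝ)) (Set.Ioi a) :=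
    (INT_sq a ha).1.const_mul _
  have j5 : IntegrableOn (fun t : ℝ => V5 * ((Cg + CF) * (x : ℝ) ^ 2) * (Cp * x) * t ^ (-2 : ℝ)) (Set.Ioi T) :=
    (INT_sq T hT).1.const_mul _
  have hb := INT_bound (INT_h φ g w x η)
    ((Set.Ioc 0 a).indicator fun _ : ℝ => Cw * V1 * (Cp * x))
    ((Set.Icc 0 T \ E).indicator fun t : ℝ => Cw * (‖DL g ((x : ℝ) ^ 2) t‖ * ‖DL φ x (2 * t)‖))
    ((E ∩ Set.Icc a T).indicator fun t : ℝ => Cw * V2 * ‖DL g ((x : ℝ) ^ 2) t‖)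
    ((Set.Ioi a).indicator fun t : ℝ => Cw * (CF * (x : ℝ) ^ 2) * (Cp * x) * t ^ (-2 : ℝ))
    ((Set.Ioi T).indicator fun t : ℝ => V5 * ((Cg + CF) * (x : ℝ) ^ 2) * (Cp * x) * t ^ (-2 : ℝ))
    (INT_nonneg φ g w x η)
    (j1.integrable_indicator measurableSet_Ioc) (j2.integrable_indicator hmE1)
    (j3.integrable_indicator hmE2) (j4.integrable_indicator measurableSet_Ioi)
    (j5.integrable_indicator measurableSet_Ioi)
    (fun t => Set.indicator_nonneg (fun _ _ => by positivity) t)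
    (fun t => Set.indicator_nonneg (fun _ _ => by positivity) t)
    (fun t => Set.indicator_nonneg (fun _ _ => by positivity) t)
    (fun t => Set.indicator_nonneg (fun y hy => by
      have : (0 : ℝ) < y := ha.trans hy
      positivity) t)
    (fun t => Set.indicator_nonneg (fun y hy => by
      have : (0 : ℝ) < y := hT.trans hy
      positivity) t) ?_
  · refine hb.trans ?_
    rw [integral_indicator measurableSet_Ioc, integral_indicator hmE1, integral_indicator hmE2,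
      integral_indicator measurableSet_Ioi, integral_indicator measurableSet_Ioi, setIntegral_const,
      integral_const_mul, integral_const_mul, integral_const_mul, integral_const_mul, (INT_sq a ha).2, (INT_sq T hT).2]
    have e1 : (volume : Measure ℝ).real (Set.Ioc 0 a) = a := by
      rw [Real.volume_real_Ioc_of_le ha.le, sub_zero]
    rw [e1, smul_eq_mul]
    have k2 := mul_le_mul_of_nonneg_left hE2 hCw0
    have k3 := mul_le_mul_of_nonneg_left hE3 (mul_nonneg hCw0 hV2)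
    linarith
  · intro t ht
    have n1 : 0 ≤ (Set.Ioc 0 a).indicator (fun _ : ℝ => Cw * V1 * (Cp * x)) t :=
      Set.indicator_nonneg (fun _ _ => by positivity) t
    have n2 : 0 ≤ (Set.Icc 0 T \ E).indicator (fun t : ℝ => Cw * (‖DL g ((x : ℝ) ^ 2) t‖ * ‖DL φ x (2 * t)‖)) t :=
      Set.indicator_nonneg (fun _ _ => by positivity) t
    have n3 : 0 ≤ (E ∩ Set.Icc a T).indicator (fun t : ℝ => Cw * V2 * ‖DL g ((x : ℝ) ^ 2) t‖) t :=
      Set.indicator_nonneg (fun _ _ => by positivity) t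
    have n4 : 0 ≤ (Set.Ioi a).indicator (fun t : ℝ => Cw * (CF * (x : ℝ) ^ 2) * (Cp * x) * t ^ (-2 : ℝ)) t :=
      Set.indicator_nonneg (fun y hy => by
        have : (0 : ℝ) < y := ha.trans hy
        positivity) t
    have n5 : 0 ≤ (Set.Ioi T).indicator
        (fun t : ℝ => V5 * ((Cg + CF) * (x : ℝ) ^ 2) * (Cp * x) * t ^ (-2 : ℝ)) t :=
      Set.indicator_nonneg (fun y hy => by
        have : (0 : ℝ) < y := hT.trans hy
        positivity) t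
    have hDn : ‖DL g ((x : ℝ) ^ 2) t - F0 g x t‖ ≤ ‖DL g ((x : ℝ) ^ 2) t‖ + ‖F0 g x t‖ := norm_sub_le _ _
    unfold INT_h
    rcases le_or_gt t a with hta | hta
    · have h1 : (Set.Ioc 0 a).indicator (fun _ : ℝ => Cw * V1 * (Cp * x)) t = Cw * V1 * (Cp * x) :=
        Set.indicator_of_mem (show t ∈ Set.Ioc 0 a from ⟨ht, hta⟩) _
      have h2 : ‖Mt w (((η * t : ℝ) : ℂ) * Complex.I)‖ * (‖DL g ((x : ℝ) ^ 2) t - F0 g x t‖ * ‖DL φ x (2 * t)‖) ≤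
          Cw * (V1 * (Cp * x)) :=
        mul_le_mul (hCw t) (mul_le_mul (hPN t ht hta) (hP t) (norm_nonneg _) hV1) (by positivity) hCw0
      rw [h1]
      linarith
    · rcases le_or_gt t T with htT | htT
      · have h4 : (Set.Ioi a).indicator (fun t : ℝ => Cw * (CF * (x : ℝ) ^ 2) * (Cp * x) * t ^ (-2 : ℝ)) t =
            Cw * (CF * (x : ℝ) ^ 2) * (Cp * x) * t ^ (-2 : ℝ) := Set.indicator_of_mem (show t ∈ Set.Ioi a from hta) _
        have hsplit : ‖Mt w (((η * t : ℝ) : ℂ) * Complex.I)‖ *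
            (‖DL g ((x : ℝ) ^ 2) t - F0 g x t‖ * ‖DL φ x (2 * t)‖) ≤
            Cw * (‖DL g ((x : ℝ) ^ 2) t‖ * ‖DL φ x (2 * t)‖) +
              Cw * (CF * (x : ℝ) ^ 2) * (Cp * x) * t ^ (-2 : ℝ) := by
          calc ‖Mt w (((η * t : ℝ) : ℂ) * Complex.I)‖ *
              (‖DL g ((x : ℝ) ^ 2) t - F0 g x t‖ * ‖DL φ x (2 * t)‖)
              ≤ Cw * ((‖DL g ((x : ℝ) ^ 2) t‖ + ‖F0 g x t‖) * ‖DL φ x (2 * t)‖) :=
                mul_le_mul (hCw t) (mul_le_mul_of_nonneg_right hDn (norm_nonneg _)) (by positivity) hCw0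
            _ = Cw * (‖DL g ((x : ℝ) ^ 2) t‖ * ‖DL φ x (2 * t)‖) + Cw * (‖F0 g x t‖ * ‖DL φ x (2 * t)‖) := by ring
            _ ≤ Cw * (‖DL g ((x : ℝ) ^ 2) t‖ * ‖DL φ x (2 * t)‖) +
                Cw * ((CF * (x : ℝ) ^ 2 * t ^ (-2 : ℝ)) * (Cp * x)) := by
                have h5 : ‖F0 g x t‖ * ‖DL φ x (2 * t)‖ ≤ (CF * (x : ℝ) ^ 2 * t ^ (-2 : ℝ)) * (Cp * x) :=
                  mul_le_mul (hF t ht) (hP t) (norm_nonneg _) (by positivity)
                have h6 := mul_le_mul_of_nonneg_left h5 hCw0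
                linarith
            _ = _ := by ring
        by_cases hEt : t ∈ E
        · have h3 : (E ∩ Set.Icc a T).indicator (fun t : ℝ => Cw * V2 * ‖DL g ((x : ℝ) ^ 2) t‖) t =
              Cw * V2 * ‖DL g ((x : ℝ) ^ 2) t‖ :=
            Set.indicator_of_mem (show t ∈ E ∩ Set.Icc a T from ⟨hEt, hta.le, htT⟩) _
          have h7 : ‖DL g ((x : ℝ) ^ 2) t‖ * ‖DL φ x (2 * t)‖ ≤ ‖DL g ((x : ℝ) ^ 2) t‖ * V2 :=
            mul_le_mul_of_nonneg_left (hVP t hta.le htT) (norm_nonneg _)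
          have h8 := mul_le_mul_of_nonneg_left h7 hCw0
          rw [h3, h4]
          linarith
        · have h3 : (Set.Icc 0 T \ E).indicator
              (fun t : ℝ => Cw * (‖DL g ((x : ℝ) ^ 2) t‖ * ‖DL φ x (2 * t)‖)) t =
              Cw * (‖DL g ((x : ℝ) ^ 2) t‖ * ‖DL φ x (2 * t)‖) :=
            Set.indicator_of_mem (show t ∈ Set.Icc 0 T \ E from ⟨⟨ht.le, htT⟩, hEt⟩) _
          rw [h3, h4]
          linarith
      · have h5 : (Set.Ioi T).indicator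
            (fun t : ℝ => V5 * ((Cg + CF) * (x : ℝ) ^ 2) * (Cp * x) * t ^ (-2 : ℝ)) t =
            V5 * ((Cg + CF) * (x : ℝ) ^ 2) * (Cp * x) * t ^ (-2 : ℝ) :=
          Set.indicator_of_mem (show t ∈ Set.Ioi T from htT) _
        have h6 : ‖Mt w (((η * t : ℝ) : ℂ) * Complex.I)‖ *
            (‖DL g ((x : ℝ) ^ 2) t - F0 g x t‖ * ‖DL φ x (2 * t)‖) ≤
            (V5 * t ^ (-2 : ℝ)) * (((Cg + CF) * (x : ℝ) ^ 2) * (Cp * x)) := by
          refine mul_le_mul (hMt t htT) (mul_le_mul ?_ (hP t) (norm_nonneg _) (by positivity)) (by positivity)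
            (by positivity)
          have h7 := hDg t
          have h8 := hF' t
          linarith
        rw [h5]
        linarith

private theorem INT_lim (K1 K2 K3 κF κ : ℝ) (hκF : 0 < κF) (hκ : 0 < κ) :
    ∃ x₀ : ℕ, ∀ x : ℕ, x₀ ≤ x →
      2 * (K1 * (Real.log x)⁻¹ + K2 * (x : ℝ) ^ (-κF) + K3 * (x : ℝ) ^ (-(2 / 3 : ℝ))) ≤ κ := by
  have h1 : Filter.Tendsto (fun y : ℝ => 2 * (K1 * (Real.log y)⁻¹ + K2 * y ^ (-κF) + K3 * y ^ (-(2 / 3 : ℝ))))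
      Filter.atTop (nhds (2 * (K1 * 0 + K2 * 0 + K3 * 0))) := by
    refine Filter.Tendsto.const_mul _ (((Filter.Tendsto.const_mul _ ?_).add (Filter.Tendsto.const_mul _ ?_)).add
      (Filter.Tendsto.const_mul _ ?_))
    · exact tendsto_inv_atTop_zero.comp Real.tendsto_log_atTop
    · exact tendsto_rpow_neg_atTop hκF
    · exact tendsto_rpow_neg_atTop (by norm_num)
  have h2 : 2 * (K1 * 0 + K2 * 0 + K3 * 0) < κ := by simpa using hκ
  have h3 := (h1.comp tendsto_natCast_atTop_atTop).eventually_le_const h2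
  obtain ⟨x₀, h⟩ := Filter.eventually_atTop.1 h3
  exact ⟨x₀, fun x hx => h x hx⟩

theorem INT (hFOU : FOU_stmt) (hDEC : DEC_stmt) (hTRV : TRV_stmt) (hPNF : PNF_stmt) (hVPP : VPP_stmt)
    (hNEAR : NEAR_stmt) (hFAR : FAR_stmt) : INT_stmt := by
  intro φ g w hφ hg hw hsupp ε₀ κ hε₀ hκ
  set ε : ℝ := min ε₀ (1 / 2) with hεdef
  have hε : 0 < ε := lt_min hε₀ (by norm_num)
  have hε2 : ε ≤ 1 / 2 := min_le_right _ _
  have hεε : ε ≤ ε₀ := min_le_left _ _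
  obtain ⟨hφneg, hφc, Cp, hCp, hCpb⟩ := hTRV φ hφ
  obtain ⟨hgneg, hgc, Cg, hCg, hCgb⟩ := hTRV g hg
  obtain ⟨c, hN⟩ := hNEAR g hg hsupp
  obtain ⟨δ, CN, xN, hδ, hCN, hN⟩ := hN (ε / 2) (by linarith) (by linarith)
  obtain ⟨B₁, xV, hV⟩ := hVPP φ hφ (c + 1)
  obtain ⟨κF, xF, hκF, hFa⟩ := hFAR φ g hφ hg (ε / 2) δ (by linarith) (by linarith) hδ
  obtain ⟨xP, hP⟩ := hPNF g hg (B₁ + 2) (B₁ + 1)
  obtain ⟨Cw, hCw, hCwb⟩ := (hDEC w hw).2 0
  obtain ⟨CF, hCF, hCFb⟩ := (hDEC g hg).2 2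
  -- the exponent
  obtain ⟨m, hm⟩ := exists_nat_ge (4 / ε)
  obtain ⟨Ck, hCk, hCkb⟩ := (hDEC w hw).2 (m + 2)
  obtain ⟨xL, hL⟩ := INT_lim (Cw * Cp + Cw * CN + Cw * CF * Cp) Cw (Ck * (Cg + CF) * Cp) κF κ hκF hκ
  refine ⟨xN + xV + xF + xP + xL + 8, fun x hx η hη hη1 => ?_⟩
  have hx1 : 1 ≤ x := by omega
  have hxR : (8 : ℝ) ≤ x := by exact_mod_cast (by omega : 8 ≤ x)
  have hx0 : (0 : ℝ) < x := by linarith
  have hx1' : (1 : ℝ) ≤ x := by linarith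
  set L : ℝ := Real.log x with hLdef
  have hL1 : 1 ≤ L := by
    rw [hLdef, Real.le_log_iff_exp_le hx0]
    have := Real.exp_one_lt_d9
    linarith
  have hL0 : 0 < L := by linarith
  have hη0 : 0 < η := (Real.rpow_pos_of_pos hx0 _).trans_le hη
  have hη' : (x : ℝ) ^ (-(4 / 3 : ℝ) + ε) ≤ η :=
    (Real.rpow_le_rpow_of_exponent_le hx1' (by linarith)).trans hη
  have hηinv : 1 / η ≤ (x : ℝ) ^ ((4 / 3 : ℝ) - ε) := by
    rw [div_le_iff₀ hη0]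
    calc (1 : ℝ) = (x : ℝ) ^ ((4 / 3 : ℝ) - ε) * (x : ℝ) ^ (-(4 / 3 : ℝ) + ε) := by
          rw [← Real.rpow_add hx0]
          norm_num
      _ ≤ _ := mul_le_mul_of_nonneg_left hη' (Real.rpow_nonneg hx0.le _)
  set T : ℝ := (x : ℝ) ^ (ε / 2) / η with hTdef
  have hxe : 1 ≤ (x : ℝ) ^ (ε / 2) := Real.one_le_rpow hx1' (by linarith)
  have hT1 : 1 ≤ T := by
    rw [hTdef, le_div_iff₀ hη0]
    linarith
  have hT2 : T ≤ (x : ℝ) ^ ((4 / 3 : ℝ) - ε / 2) := by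
    calc T = (x : ℝ) ^ (ε / 2) * (1 / η) := by rw [hTdef]; ring
      _ ≤ (x : ℝ) ^ (ε / 2) * (x : ℝ) ^ ((4 / 3 : ℝ) - ε) :=
          mul_le_mul_of_nonneg_left hηinv (by linarith)
      _ = _ := by
          rw [← Real.rpow_add hx0]
          congr 1
          ring
  have hT3 : 2 * T ≤ (x : ℝ) ^ 2 := by
    have h1 : T ≤ (x : ℝ) ^ (4 / 3 : ℝ) := hT2.trans (Real.rpow_le_rpow_of_exponent_le hx1' (by linarith))
    have h2 : (2 : ℝ) ≤ (x : ℝ) ^ (2 / 3 : ℝ) := by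
      calc (2 : ℝ) ≤ (8 : ℝ) ^ (2 / 3 : ℝ) := by
            rw [show (8 : ℝ) = 2 ^ (3 : ℝ) by norm_num, ← Real.rpow_mul (by norm_num)]
            norm_num
        _ ≤ _ := Real.rpow_le_rpow (by norm_num) hxR (by norm_num)
    calc 2 * T ≤ (x : ℝ) ^ (2 / 3 : ℝ) * (x : ℝ) ^ (4 / 3 : ℝ) :=
          mul_le_mul h2 h1 (by linarith) (Real.rpow_nonneg hx0.le _)
      _ = (x : ℝ) ^ 2 := by
          rw [← Real.rpow_add hx0, ← Real.rpow_natCast]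
          norm_num
  set a : ℝ := L ^ (B₁ + 1) with hadef
  have ha1 : 1 ≤ a := one_le_pow₀ hL1
  have haL : L ≤ a := by
    rw [hadef, pow_succ]
    exact le_mul_of_one_le_left hL0.le (one_le_pow₀ hL1)
  have haB : L ^ B₁ ≤ a := pow_le_pow_right₀ hL1 (Nat.le_succ B₁)
  obtain ⟨E, hEm, hEv, hE2⟩ := hFa x (by omega) T hT1 hT2
  -- bounds for the transforms
  have hFn : ∀ t : ℝ, ‖F0 g x t‖ * (1 + ‖1 - (t : ℂ) * Complex.I‖) ^ 2 ≤ CF * (x : ℝ) ^ 2 := by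
    intro t
    rw [INT_F0_norm g x hx1 t]
    have h1 := hCFb (1 - (t : ℂ) * Complex.I) (by simp)
    have h2 := mul_le_mul_of_nonneg_left h1 (by positivity : (0 : ℝ) ≤ (x : ℝ) ^ 2)
    linarith
  have hFa' : ∀ t : ℝ, ‖F0 g x t‖ ≤ CF * (x : ℝ) ^ 2 := by
    intro t
    refine le_trans ?_ (hFn t)
    refine le_mul_of_one_le_right (norm_nonneg _) (one_le_pow₀ ?_)
    linarith [norm_nonneg (1 - (t : ℂ) * Complex.I)]
  have hFb' : ∀ t : ℝ, 0 < t → ‖F0 g x t‖ ≤ CF * (x : ℝ) ^ 2 * t ^ (-2 : ℝ) := by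
    intro t ht
    have h1 : t ≤ 1 + ‖1 - (t : ℂ) * Complex.I‖ := by
      have h2 := Complex.abs_im_le_norm (1 - (t : ℂ) * Complex.I)
      have h3 : (1 - (t : ℂ) * Complex.I).im = -t := by simp
      rw [h3, abs_neg, abs_of_pos ht] at h2
      linarith
    have h4 : ‖F0 g x t‖ * t ^ 2 ≤ CF * (x : ℝ) ^ 2 :=
      (mul_le_mul_of_nonneg_left (pow_le_pow_left₀ ht.le h1 2) (norm_nonneg _)).trans (hFn t)
    rw [Real.rpow_neg ht.le, ← div_eq_mul_inv, le_div_iff₀ (Real.rpow_pos_of_pos ht _)]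
    have h5 : t ^ (2 : ℝ) = t ^ 2 := by
      rw [← Real.rpow_natCast]
      norm_num
    rw [h5]
    exact h4
  have hre : ∀ t : ℝ, |(((η * t : ℝ) : ℂ) * Complex.I).re| ≤ 2 := by
    intro t
    simp
  have hCw' : ∀ t : ℝ, ‖Mt w (((η * t : ℝ) : ℂ) * Complex.I)‖ ≤ Cw := by
    intro t
    have := hCwb _ (hre t)
    simpa using this
  set V5 : ℝ := Ck / (((x : ℝ) ^ (ε / 2)) ^ m * η ^ 2) with hV5
  have hMt : ∀ t : ℝ, T < t → ‖Mt w (((η * t : ℝ) : ℂ) * Complex.I)‖ ≤ V5 * t ^ (-2 : ℝ) := by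
    intro t ht
    have ht0 : 0 < t := by linarith
    have h1 := hCkb _ (hre t)
    have h2 : ‖((η * t : ℝ) : ℂ) * Complex.I‖ = η * t := by
      rw [norm_mul, Complex.norm_I, mul_one, Complex.norm_real, Real.norm_eq_abs, abs_of_pos (by positivity)]
    rw [h2] at h1
    have h3 : (x : ℝ) ^ (ε / 2) ≤ η * t := by
      have h4 : η * T = (x : ℝ) ^ (ε / 2) := by
        rw [hTdef]
        field_simp
      rw [← h4]
      exact mul_le_mul_of_nonneg_left ht.le hη0.le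
    have h5 : ((x : ℝ) ^ (ε / 2)) ^ m * (η ^ 2 * t ^ 2) ≤ (1 + η * t) ^ (m + 2) := by
      rw [pow_add, ← mul_pow η t 2]
      refine mul_le_mul (pow_le_pow_left₀ (by linarith) (by linarith) m)
        (pow_le_pow_left₀ (by positivity) (by linarith) 2) (by positivity) (by positivity)
    have h6 : ‖Mt w (((η * t : ℝ) : ℂ) * Complex.I)‖ * (((x : ℝ) ^ (ε / 2)) ^ m * (η ^ 2 * t ^ 2)) ≤ Ck :=
      (mul_le_mul_of_nonneg_left h5 (norm_nonneg _)).trans h1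
    have h7 : t ^ (2 : ℝ) = t ^ 2 := by
      rw [← Real.rpow_natCast]
      norm_num
    rw [Real.rpow_neg ht0.le, h7, hV5, ← div_eq_mul_inv, div_div, le_div_iff₀ (by positivity)]
    calc _ = ‖Mt w (((η * t : ℝ) : ℂ) * Complex.I)‖ * (((x : ℝ) ^ (ε / 2)) ^ m * (η ^ 2 * t ^ 2)) := by ring
      _ ≤ Ck := h6
  have hfix := INT_fixed φ g w x η T a Cw Cp CF Cg ((x : ℝ) ^ 2 / L ^ (B₁ + 2)) (x / L ^ (c + 1))
    ((x : ℝ) ^ (3 - κF)) (CN * (x : ℝ) ^ 2 * L ^ c) V5 E (by linarith) (by linarith)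
    (hgc _ (by positivity)) (hφc _ hx0) hEm hCw' (fun t => hCpb x (2 * t) hx1') hFb' hFa'
    (fun t => hCgb _ t (one_le_pow₀ hx1'))
    (fun t ht hta => hP x (by omega) t (by rw [abs_of_pos ht]; exact hta))
    (fun t hta htT => hV x (by omega) (2 * t) (by
        rw [abs_of_pos (by linarith)]
        linarith) (by
        rw [abs_of_pos (by linarith)]
        linarith))
    hE2
    (hN x (by omega) (E ∩ Set.Icc a T) (hEm.inter measurableSet_Icc)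
      (fun t ht => ⟨ha1.trans ht.2.1, ht.2.2.trans hT2⟩) ((measure_mono Set.inter_subset_left).trans hEv))
    hMt hCw.le hCp.le hCF.le hCg.le (by positivity) (by positivity) (by positivity)
  have hhalf := INT_half φ g w x η (INT_even φ g w x hx1 η (fun t => hφneg x t hx0) fun t => hgneg _ t (by positivity))
  have hfou := hFOU φ g w hφ hg hw x η hx1 hη0
  have hlim := hL x (by omega)
  -- the five terms
  have hx3 : (0 : ℝ) < (x : ℝ) ^ 3 := by positivity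
  have t1 : Cw * ((x : ℝ) ^ 2 / L ^ (B₁ + 2)) * (Cp * x) * a = Cw * Cp * L⁻¹ * (x : ℝ) ^ 3 := by
    rw [hadef, pow_succ L (B₁ + 1)]
    field_simp
  have t2 : Cw * (x : ℝ) ^ (3 - κF) = Cw * (x : ℝ) ^ (-κF) * (x : ℝ) ^ 3 := by
    have : (x : ℝ) ^ (3 - κF) = (x : ℝ) ^ (-κF) * (x : ℝ) ^ 3 := by
      rw [← Real.rpow_natCast, ← Real.rpow_add hx0]
      congr 1
      push_cast
      ring
    rw [this]
    ring
  have t3 : Cw * (x / L ^ (c + 1)) * (CN * (x : ℝ) ^ 2 * L ^ c) = Cw * CN * L⁻¹ * (x : ℝ) ^ 3 := by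
    rw [pow_succ L c]
    field_simp
  have t4 : Cw * (CF * (x : ℝ) ^ 2) * (Cp * x) * (1 / a) ≤ Cw * CF * Cp * L⁻¹ * (x : ℝ) ^ 3 := by
    have h1 : 1 / a ≤ L⁻¹ := by
      rw [← one_div]
      exact one_div_le_one_div_of_le hL0 haL
    calc _ ≤ Cw * (CF * (x : ℝ) ^ 2) * (Cp * x) * L⁻¹ := mul_le_mul_of_nonneg_left h1 (by positivity)
      _ = _ := by ring
  have t5 : V5 * ((Cg + CF) * (x : ℝ) ^ 2) * (Cp * x) * (1 / T) ≤
      Ck * (Cg + CF) * Cp * (x : ℝ) ^ (-(2 / 3 : ℝ)) * (x : ℝ) ^ 3 := by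
    have h1 : V5 * (1 / T) = Ck * ((1 / η) * (((x : ℝ) ^ (ε / 2)) ^ (m + 1))⁻¹) := by
      rw [hV5, hTdef]
      field_simp
      rw [pow_succ, mul_comm]
    have h2 : (1 / η) * (((x : ℝ) ^ (ε / 2)) ^ (m + 1))⁻¹ ≤ (x : ℝ) ^ (-(2 / 3 : ℝ)) := by
      have h3 : 1 / η ≤ (x : ℝ) ^ (4 / 3 : ℝ) :=
        hηinv.trans (Real.rpow_le_rpow_of_exponent_le hx1' (by linarith))
      have h4 : (((x : ℝ) ^ (ε / 2)) ^ (m + 1))⁻¹ ≤ (x : ℝ) ^ (-2 : ℝ) := by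
        rw [← Real.rpow_natCast, ← Real.rpow_mul hx0.le, ← Real.rpow_neg hx0.le]
        apply Real.rpow_le_rpow_of_exponent_le hx1'
        have h5 : 4 ≤ m * ε := by
          rw [div_le_iff₀ hε] at hm
          exact hm
        have h6 : ε / 2 * ((m + 1 : ℕ) : ℝ) = m * ε / 2 + ε / 2 := by
          push_cast
          ring
        rw [h6]
        linarith
      calc _ ≤ (x : ℝ) ^ (4 / 3 : ℝ) * (x : ℝ) ^ (-2 : ℝ) := mul_le_mul h3 h4 (by positivity) (by positivity)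
        _ = _ := by
          rw [← Real.rpow_add hx0]
          norm_num
    calc V5 * ((Cg + CF) * (x : ℝ) ^ 2) * (Cp * x) * (1 / T) =
        (V5 * (1 / T)) * ((Cg + CF) * (x : ℝ) ^ 2 * (Cp * x)) := by ring
      _ = ((1 / η) * (((x : ℝ) ^ (ε / 2)) ^ (m + 1))⁻¹) * (Ck * ((Cg + CF) * (x : ℝ) ^ 2 * (Cp * x))) := by
          rw [h1]
          ring
      _ ≤ (x : ℝ) ^ (-(2 / 3 : ℝ)) * (Ck * ((Cg + CF) * (x : ℝ) ^ 2 * (Cp * x))) :=
          mul_le_mul_of_nonneg_right h2 (by positivity)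
      _ = _ := by ring
  have htot : ∫ t in Set.Ioi (0 : ℝ), INT_h φ g w x η t ≤
      ((Cw * Cp + Cw * CN + Cw * CF * Cp) * L⁻¹ + Cw * (x : ℝ) ^ (-κF) +
        Ck * (Cg + CF) * Cp * (x : ℝ) ^ (-(2 / 3 : ℝ))) * (x : ℝ) ^ 3 := by
    rw [t1, t2, t3] at hfix
    linarith
  have hJ : ∫ t : ℝ, INT_h φ g w x η t ≤ κ * (x : ℝ) ^ 3 := by
    rw [hhalf]
    have h1 := mul_le_mul_of_nonneg_right hlim hx3.le
    linarith
  calc |Spn φ g w x η - S0 φ g w x η| ≤ η * ∫ t : ℝ, INT_h φ g w x η t := hfou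
    _ ≤ η * (κ * (x : ℝ) ^ 3) := mul_le_mul_of_nonneg_left hJ hη0.le
    _ = κ * η * (x : ℝ) ^ 3 := by ring

end Pool.Agent.SCT
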